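import Mathlib
import Pool.Agent.H533Z.TRDefs
import Pool.Agent.H533Z.TRMain

set_option autoImplicit false

namespace Pool.Agent.Results.MP_ea5a80_co.ATransSmaller

open Pool.Agent.H533Z.TR

/-- `N'_4(3, 5) < N_4(3, 5)`. -/
theorem result : transPathNumber 4 3 5 < pathNumber 4 3 5 := main

end Pool.Agent.Results.MP_ea5a80_co.ATransSmaller
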